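import Pool.Agent.MP_e9afb0_an.SemiEberlein

/-!
# The dual ball of `C(K)` is an Eberlein compact space, without property (F)
-/

set_option autoImplicit false

open Set Filter Topology

namespace SemiEb

variable {Γ : Type}

/-- the number of the coordinates of a point, up to a level -/
def posn (n : ℕ) : S Γ → ℕ
  | .inl i => i.2
  | .inr _ => n + 1

theorem card_level (k : K Γ) (n : ℕ) (T : Finset (S Γ))
    (hT : ∀ s ∈ T, co k s = true ∧ lev s ≤ n) : T.card ≤ n + 2 := by
  classical
  have h : T.card ≤ (Finset.range (n + 2)).card := by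
    refine Finset.card_le_card_of_injOn (posn n) ?_ ?_
    · intro s hs
      obtain ⟨h1, h2⟩ := hT s hs
      rw [Finset.mem_coe, Finset.mem_range]
      rcases s with ⟨a, j⟩ | m
      · exact lt_of_le_of_lt (show j ≤ n from h2) (by omega)
      · exact Nat.lt_succ_self _
    · intro s hs t ht hst
      obtain ⟨h1, h2⟩ := hT s hs
      obtain ⟨h3, h4⟩ := hT t ht
      rcases s with ⟨a, j⟩ | m <;> rcases t with ⟨b, l⟩ | m'
      · have h5 : j = l := hst
        subst h5
        have h6 : a = b := k.1.1.2 j a b h1 h3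
        rw [h6]
      · exfalso
        have h5 : j = n + 1 := hst
        have h6 : j ≤ n := h2
        omega
      · exfalso
        have h5 : n + 1 = l := hst
        have h6 : l ≤ n := h4
        omega
      · have h5 : m = k.1.1 := k.2 m h1
        have h6 : m' = k.1.1 := k.2 m' h3
        rw [h5, h6]
  simpa using h

theorem card_mon (k : K Γ) (n : ℕ) (T : Finset (Finset (S Γ)))
    (hT : ∀ F ∈ T, F.sup lev ≤ n) : ∑ F ∈ T, mon F k ≤ 2 ^ (n + 2) := by
  classical
  set T' := T.filter fun F => ∀ s ∈ F, co k s = true with hT'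
  have h1 : ∑ F ∈ T, mon F k = (T'.card : ℝ) := by
    rw [hT', Finset.card_filter]
    push_cast
    refine Finset.sum_congr rfl fun F _ => ?_
    rw [mon_apply]
  set L : Finset (S Γ) := (finite_level k n).toFinset with hL
  have h2 : T' ⊆ L.powerset := by
    intro F hF
    rw [hT', Finset.mem_filter] at hF
    rw [Finset.mem_powerset]
    intro s hs
    rw [hL, Set.Finite.mem_toFinset]
    exact ⟨hF.2 s hs, (Finset.le_sup (f := lev) hs).trans (hT F hF.1)⟩
  have h3 : L.card ≤ n + 2 := by
    refine card_level k n L fun s hs => ?_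
    rw [hL, Set.Finite.mem_toFinset] at hs
    exact hs
  have h4 : T'.card ≤ 2 ^ (n + 2) := by
    refine (Finset.card_le_card h2).trans ?_
    rw [Finset.card_powerset]
    exact Nat.pow_le_pow_right (by norm_num) h3
  rw [h1]
  exact_mod_cast h4

/-- All values of the embedding `hm` are in `c₀`. -/
theorem finite_hm (φ : DB C(K Γ, ℝ)) (ε : ℝ) (hε : 0 < ε) : {i | ε ≤ |hm φ i|}.Finite := by
  classical
  obtain ⟨n, hn⟩ := exists_nat_gt (1 / ε)
  have hfin : {F : Finset (S Γ) | F.sup lev ≤ n ∧ ε ≤ |φ.1 (mon F)|}.Finite := by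
    by_contra hinf
    obtain ⟨N, hN⟩ := exists_nat_gt ((2 : ℝ) ^ (n + 2) / ε)
    obtain ⟨T, hT1, hT2⟩ := Set.Infinite.exists_subset_card_eq hinf N
    rw [div_lt_iff₀ hε] at hN
    set sg : Finset (S Γ) → ℝ := fun F => SignType.sign (φ.1 (mon F)) with hsg
    have h1 : (N : ℝ) * ε ≤ ∑ F ∈ T, |φ.1 (mon F)| := by
      rw [← hT2, ← nsmul_eq_mul]
      exact Finset.card_nsmul_le_sum _ _ _ fun F hF => (hT1 hF).2
    have h2 : ∑ F ∈ T, |φ.1 (mon F)| = φ.1 (∑ F ∈ T, sg F • mon F) := by
      rw [map_sum]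
      refine Finset.sum_congr rfl fun F _ => ?_
      rw [map_smul, smul_eq_mul, hsg]
      exact (sign_mul_self _).symm
    have h3 : ‖∑ F ∈ T, sg F • mon F‖ ≤ 2 ^ (n + 2) := by
      rw [ContinuousMap.norm_le _ (by positivity)]
      intro k
      rw [ContinuousMap.sum_apply]
      refine (norm_sum_le _ _).trans (le_trans ?_ (card_mon k n T fun F hF => (hT1 hF).1))
      refine Finset.sum_le_sum fun F _ => ?_
      rw [ContinuousMap.smul_apply, norm_smul]
      have h4 : 0 ≤ mon F k := by
        rw [mon_apply]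
        split_ifs <;> norm_num
      have h5 : ‖sg F‖ ≤ 1 := by
        rw [hsg]
        show ‖((SignType.sign (φ.1 (mon F)) : SignType) : ℝ)‖ ≤ 1
        generalize SignType.sign (φ.1 (mon F)) = s
        cases s <;> simp
      rw [Real.norm_eq_abs (mon F k), abs_of_nonneg h4]
      exact mul_le_of_le_one_left h4 h5
    have h6 : φ.1 (∑ F ∈ T, sg F • mon F) ≤ 2 ^ (n + 2) :=
      (le_abs_self _).trans ((φ.2 _).trans h3)
    linarith
  refine (hfin.prod (finite_univ (α := Bool))).subset ?_
  rintro ⟨F, b⟩ hi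
  refine ⟨?_, mem_univ _⟩
  have hle : |hm φ (F, b)| ≤ wt F * |φ.1 (mon F)| := by
    have h0 : ∀ x : ℝ, |wt F * max x 0| ≤ wt F * |x| := by
      intro x
      rw [abs_mul, abs_of_pos (wt_pos F)]
      refine mul_le_mul_of_nonneg_left ?_ (wt_pos F).le
      rw [abs_of_nonneg (le_max_right _ _)]
      exact max_le (le_abs_self _) (abs_nonneg _)
    cases b
    · have := h0 (-φ.1 (mon F))
      rwa [abs_neg] at this
    · exact h0 _
  have hi' : ε ≤ wt F * |φ.1 (mon F)| := le_trans hi hle
  have h1 : ε ≤ wt F := by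
    refine hi'.trans (mul_le_of_le_one_right (wt_pos F).le (abs_mon_le _ _))
  have h2 : ε ≤ |φ.1 (mon F)| :=
    hi'.trans (mul_le_of_le_one_left (abs_nonneg _) (wt_le F))
  refine ⟨?_, h2⟩
  unfold wt at h1
  rw [le_div_iff₀ (by positivity)] at h1
  have h3 : (1 : ℝ) + (F.sup lev : ℕ) ≤ 1 / ε := by
    rw [le_div_iff₀ hε]
    linarith
  have h4 : ((F.sup lev : ℕ) : ℝ) < n := by linarith
  exact_mod_cast h4.le

/-- The version of `notF` with an index set in any universe. -/
theorem notF' [Uncountable Γ] (Λ : Type*) (f : DB C(K Γ, ℝ) → (Λ → ℝ)) (hf : IsEmbedding f)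
    (hd : Dense {k | {i : Λ | f k i ≠ 0}.Finite}) : False := by
  let Λ' : Type := ↥(range fun (i : Λ) (k : DB C(K Γ, ℝ)) => f k i)
  let f' : DB C(K Γ, ℝ) → (Λ' → ℝ) := fun k g => g.1 k
  have hc : Continuous f' := by
    refine continuous_pi fun g => ?_
    obtain ⟨_, i, rfl⟩ := g
    exact (continuous_apply i).comp hf.continuous
  have hi : Function.Injective f' := by
    intro k l h
    refine hf.injective (funext fun i => ?_)
    exact congrFun h ⟨_, i, rfl⟩
  refine notF Λ' f' (hc.isClosedEmbedding hi).isEmbedding (hd.mono fun k hk => ?_)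
  have h1 : {g : Λ' | f' k g ≠ 0} ⊆
      (fun i : Λ => (⟨_, i, rfl⟩ : Λ')) '' {i : Λ | f k i ≠ 0} := by
    rintro ⟨_, i, rfl⟩ hg
    exact ⟨i, hg, rfl⟩
  exact (Set.Finite.image _ hk).subset h1

end SemiEb
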