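import Pool.Agent.MP_e9afb0_an.Space

/-!
# The dual ball of `C(K)` has no embedding with dense finitely supported points
-/

open Set Filter Topology

namespace SemiEb

/-- the dual unit ball, in the weak star topology -/
abbrev DB (X : Type) [NormedAddCommGroup X] [NormedSpace ℝ X] : Type :=
  {φ : WeakDual ℝ X // ∀ x : X, |φ x| ≤ ‖x‖}

theorem isCompact_DB (X : Type) [NormedAddCommGroup X] [NormedSpace ℝ X] :
    IsCompact {φ : WeakDual ℝ X | ∀ x : X, |φ x| ≤ ‖x‖} := by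
  have h : {φ : WeakDual ℝ X | ∀ x : X, |φ x| ≤ ‖x‖} =
      WeakDual.toStrongDual ⁻¹' Metric.closedBall (0 : StrongDual ℝ X) 1 := by
    ext φ
    rw [mem_preimage, mem_closedBall_zero_iff]
    constructor
    · intro h
      refine ContinuousLinearMap.opNorm_le_bound _ zero_le_one fun x => ?_
      rw [one_mul]
      exact h x
    · intro h x
      have h2 := ContinuousLinearMap.le_of_opNorm_le _ h x
      rw [one_mul] at h2
      exact h2
  rw [h]
  exact WeakDual.isCompact_closedBall 0 1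

instance (X : Type) [NormedAddCommGroup X] [NormedSpace ℝ X] : CompactSpace (DB X) :=
  isCompact_iff_compactSpace.1 (isCompact_DB X)

instance (X : Type) [NormedAddCommGroup X] [NormedSpace ℝ X] : T2Space (DB X) := inferInstance

theorem continuous_evalDB {X : Type} [NormedAddCommGroup X] [NormedSpace ℝ X] (x : X) :
    Continuous fun φ : DB X => φ.1 x :=
  (WeakDual.eval_continuous x).comp continuous_subtype_val

variable {Γ : Type}

/-- a coordinate of `K` as a real function -/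
noncomputable def cf (s : S Γ) : C(K Γ, ℝ) where
  toFun k := if co k s = true then 1 else 0
  continuous_toFun := by
    have h : Continuous fun b : Bool => if b = true then (1 : ℝ) else 0 :=
      continuous_of_discreteTopology
    exact h.comp (continuous_co s)

theorem cf_apply (s : S Γ) (k : K Γ) : cf s k = if co k s = true then 1 else 0 := rfl

/-- point evaluation as an element of the dual ball -/
noncomputable def dl (k : K Γ) : DB C(K Γ, ℝ) :=
  ⟨StrongDual.toWeakDual (ContinuousMap.evalCLM ℝ k), fun F => F.norm_coe_le_norm k⟩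

theorem dl_apply (k : K Γ) (F : C(K Γ, ℝ)) : (dl k).1 F = F k := rfl

theorem near_k₁ (q : M Γ) {d : ℝ} (φ : DB C(K Γ, ℝ)) (h : 1 - d < φ.1 (cf (.inr q)))
    (G : C(K Γ, ℝ)) : |φ.1 G - G (k₁ q)| ≤ 2 * d * ‖G‖ := by
  set e : C(K Γ, ℝ) := cf (.inr q) with he
  have he1 : e (k₁ q) = 1 := by
    rw [he, cf_apply]
    simp [co, k₁]
  have he0 : ∀ k : K Γ, k ≠ k₁ q → e k = 0 := by
    intro k hk
    rw [he, cf_apply, if_neg]
    intro h2
    have h3 : q = k.1.1 := k.2 q h2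
    apply hk
    refine Subtype.ext (Prod.ext h3.symm (funext fun m => ?_))
    rw [Bool.eq_iff_iff]
    constructor
    · intro h4
      have h5 : m = q := (k.2 m h4).trans h3.symm
      simp [k₁, h5]
    · intro h4
      have h5 : m = q := by simpa [k₁] using h4
      rw [h5]
      exact h2
  set t := ‖G‖ with ht
  have hGt : ∀ k, |G k| ≤ t := fun k => G.norm_coe_le_norm k
  have ht0 : 0 ≤ t := norm_nonneg _
  have hen : ‖e‖ ≤ 1 := by
    rw [ContinuousMap.norm_le _ zero_le_one]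
    intro k
    rw [he, cf_apply]
    split_ifs <;> simp
  have hφe : φ.1 e ≤ 1 := (le_abs_self _).trans ((φ.2 e).trans hen)
  set a := G (k₁ q) with ha
  set G₁ : C(K Γ, ℝ) := G - a • e with hG₁
  have hG₁k : ∀ k, G₁ k = G k - a * e k := fun k => rfl
  have h5 : ∀ c : ℝ, |c| = 1 → c * φ.1 G₁ ≤ t * d := by
    intro c hc
    have h6 : ‖t • e + c • G₁‖ ≤ t := by
      rw [ContinuousMap.norm_le _ ht0]
      intro k
      change ‖t * e k + c * G₁ k‖ ≤ t
      rw [hG₁k]
      by_cases hk : k = k₁ q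
      · rw [hk, he1, ← ha, mul_one, mul_one, sub_self, mul_zero, add_zero, Real.norm_eq_abs,
          abs_of_nonneg ht0]
      · rw [he0 k hk, mul_zero, mul_zero, sub_zero, zero_add, Real.norm_eq_abs, abs_mul, hc,
          one_mul]
        exact hGt k
    have h7 := (le_abs_self _).trans ((φ.2 (t • e + c • G₁)).trans h6)
    rw [map_add, map_smul, map_smul, smul_eq_mul, smul_eq_mul] at h7
    nlinarith
  have h8 := h5 1 (by simp)
  have h9 := h5 (-1) (by simp)
  have h10 : φ.1 G = φ.1 G₁ + a * φ.1 e := by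
    have : G = G₁ + a • e := by rw [hG₁]; abel
    conv_lhs => rw [this]
    rw [map_add, map_smul, smul_eq_mul]
  have h11 : |a| ≤ t := hGt _
  rw [h10]
  have h12 : |a * (φ.1 e - 1)| ≤ t * d := by
    rw [abs_mul]
    refine mul_le_mul h11 ?_ (abs_nonneg _) ht0
    rw [abs_le]
    constructor <;> linarith
  have h13 : |φ.1 G₁| ≤ t * d := by
    rw [abs_le]
    constructor <;> linarith
  calc |φ.1 G₁ + a * φ.1 e - a| = |φ.1 G₁ + a * (φ.1 e - 1)| := by congr 1; ring
    _ ≤ |φ.1 G₁| + |a * (φ.1 e - 1)| := abs_add_le _ _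
    _ ≤ _ := by linarith

/-- the points with at most `n` nonzero coordinates -/
def Dn {Z Λ : Type*} (g : Z → Λ → ℝ) (n : ℕ) : Set Z :=
  {z | ∃ F : Finset Λ, F.card ≤ n ∧ ∀ i, i ∉ F → g z i = 0}

theorem exists_big {Z Λ : Type*} {g : Z → Λ → ℝ} {n : ℕ} {z : Z} (hz : z ∉ Dn g n) :
    ∃ F : Finset Λ, F.card = n + 1 ∧ ∀ i ∈ F, g z i ≠ 0 := by
  classical
  have h : ∀ m ≤ n + 1, ∃ F : Finset Λ, F.card = m ∧ ∀ i ∈ F, g z i ≠ 0 := by
    intro m
    induction m with
    | zero => exact fun _ => ⟨∅, rfl, by simp⟩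
    | succ m ih =>
      intro hm
      obtain ⟨F, hF, h1⟩ := ih (by omega)
      have h2 : ∃ i, i ∉ F ∧ g z i ≠ 0 := by
        by_contra hcon
        push Not at hcon
        exact hz ⟨F, by omega, hcon⟩
      obtain ⟨i, hi, h3⟩ := h2
      refine ⟨insert i F, by rw [Finset.card_insert_of_notMem hi, hF], fun j hj => ?_⟩
      rcases Finset.mem_insert.1 hj with rfl | hj
      · exact h3
      · exact h1 j hj
  exact h (n + 1) le_rfl

theorem isOpen_nonzero {Z Λ : Type*} [TopologicalSpace Z] {g : Z → Λ → ℝ} (hg : Continuous g)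
    (F : Finset Λ) : IsOpen {z | ∀ i ∈ F, g z i ≠ 0} := by
  have h : {z | ∀ i ∈ F, g z i ≠ 0} = ⋂ i ∈ F, {z | g z i ≠ 0} := by
    ext z
    simp
  rw [h]
  refine isOpen_biInter_finset fun i _ => ?_
  exact isOpen_ne.preimage ((continuous_apply i).comp hg)

theorem isClosed_Dn {Z Λ : Type*} [TopologicalSpace Z] {g : Z → Λ → ℝ} (hg : Continuous g)
    (n : ℕ) : IsClosed (Dn g n) := by
  rw [← isOpen_compl_iff, isOpen_iff_mem_nhds]
  intro z hz
  obtain ⟨F, hF, h1⟩ := exists_big hz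
  refine mem_nhds_iff.2 ⟨_, ?_, isOpen_nonzero hg F, h1⟩
  rintro z' h2 ⟨F', h3, h4⟩
  have h5 : F ⊆ F' := by
    intro i hi
    by_contra h6
    exact h2 i hi (h4 i h6)
  have := Finset.card_le_card h5
  omega

theorem height {Z M' Λ : Type*} [TopologicalSpace Z] [TopologicalSpace M'] [T2Space M']
    [RegularSpace M'] {g : Z → Λ → ℝ} (hg : Continuous g) {p : Z → M'} (hp : Continuous p)
    (n : ℕ) : ∀ R : Set Z, IsCompact R → R ⊆ Dn g n → ∀ W : Set M', IsOpen W → W.Nonempty →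
      W ⊆ p '' R → ∃ R' ⊆ R, IsCompact R' ∧ ∃ W' ⊆ W, IsOpen W' ∧ W'.Nonempty ∧ W' ⊆ p '' R' ∧
        ∃ F : Finset Λ, ∀ r ∈ R', ∀ i, i ∉ F → g r i = 0 := by
  classical
  induction n with
  | zero =>
    intro R hR hRD W hW hne hWR
    refine ⟨R, Subset.rfl, hR, W, Subset.rfl, hW, hne, hWR, ∅, fun r hr i _ => ?_⟩
    obtain ⟨F, hF, h1⟩ := hRD hr
    have : F = ∅ := Finset.card_eq_zero.1 (by omega)
    exact h1 i (by simp [this])
  | succ n ih =>
    intro R hR hRD W hW hne hWR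
    have hcomp : IsCompact (R ∩ Dn g n) := hR.inter_right (isClosed_Dn hg n)
    by_cases hcase : W ⊆ p '' (R ∩ Dn g n)
    · obtain ⟨R', h1, h2, h3⟩ := ih _ hcomp inter_subset_right W hW hne hcase
      exact ⟨R', h1.trans inter_subset_left, h2, h3⟩
    · obtain ⟨w, hw, hwn⟩ := not_subset.1 hcase
      have hcl : IsClosed (p '' (R ∩ Dn g n)) := (hcomp.image hp).isClosed
      have hopen : IsOpen (W ∩ (p '' (R ∩ Dn g n))ᶜ) := hW.inter hcl.isOpen_compl
      obtain ⟨V, hVw, hVcl, hV⟩ := exists_mem_nhds_isClosed_subset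
        (hopen.mem_nhds ⟨hw, hwn⟩)
      set R' := R ∩ p ⁻¹' V with hR'
      have hR'c : IsCompact R' := hR.inter_right (hVcl.preimage hp)
      have hbig : ∀ r ∈ R', ∃ F : Finset Λ, F.card = n + 1 ∧ ∀ i ∈ F, g r i ≠ 0 := by
        intro r hr
        refine exists_big fun h => ?_
        exact (hV hr.2).2 ⟨r, ⟨hr.1, h⟩, rfl⟩
      choose! Fr hFr1 hFr2 using hbig
      obtain ⟨t, ht, htc⟩ := hR'c.elim_nhds_subcover (fun r => {z | ∀ i ∈ Fr r, g z i ≠ 0})
        (fun r hr => (isOpen_nonzero hg _).mem_nhds (hFr2 r hr))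
      refine ⟨R', inter_subset_left, hR'c, interior V, interior_subset.trans
        (fun v hv => (hV hv).1), isOpen_interior, ⟨w, mem_interior_iff_mem_nhds.2 hVw⟩, ?_,
        t.biUnion Fr, ?_⟩
      · intro v hv
        have hv' : v ∈ V := interior_subset hv
        obtain ⟨r, hr, rfl⟩ := hWR (hV hv').1
        exact ⟨r, ⟨hr, hv'⟩, rfl⟩
      · intro r hr i hi
        obtain ⟨r₀, hr₀, h5⟩ := mem_iUnion₂.1 (htc hr)
        obtain ⟨F', h6, h7⟩ := hRD hr.1
        have h8 : Fr r₀ ⊆ F' := by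
          intro j hj
          by_contra h9
          exact h5 j hj (h7 j h9)
        have h9 : Fr r₀ = F' := Finset.eq_of_subset_of_card_le h8 (by
          rw [hFr1 r₀ (ht r₀ hr₀)]
          exact h6)
        refine h7 i fun h10 => hi ?_
        rw [← h9] at h10
        exact Finset.mem_biUnion.2 ⟨r₀, hr₀, h10⟩

theorem countable_of_family {Z M' Λ Γ' : Type*} [TopologicalSpace Z] [TopologicalSpace M']
    {g : Z → Λ → ℝ} (hg : Continuous g) {p : Z → M'} (hp : Continuous p)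
    {R : Set Z} (hR : IsCompact R) (hinj : InjOn g R) {W : Set M'} (hWR : W ⊆ p '' R)
    {F : Finset Λ} (hF : ∀ r ∈ R, ∀ i, i ∉ F → g r i = 0) {O : Γ' → Set M'}
    (hO : ∀ a, IsOpen (O a)) (hOW : ∀ a, (O a ∩ W).Nonempty)
    (hd : Pairwise (Function.onFun Disjoint O)) : Countable Γ' := by
  have : CompactSpace R := isCompact_iff_compactSpace.1 hR
  let G : R → F → ℝ := fun r i => g r.1 i.1
  have hG : Continuous G := by
    refine continuous_pi fun i => ?_
    exact (continuous_apply i.1).comp (hg.comp continuous_subtype_val)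
  have hGi : Function.Injective G := by
    intro r s hrs
    refine Subtype.ext (hinj r.2 s.2 (funext fun i => ?_))
    by_cases hi : i ∈ F
    · exact congrFun hrs ⟨i, hi⟩
    · rw [hF _ r.2 i hi, hF _ s.2 i hi]
  have hemb : IsEmbedding G := (hG.isClosedEmbedding hGi).isEmbedding
  have : SecondCountableTopology R := hemb.secondCountableTopology
  have h1 : (univ : Set Γ').Countable := by
    refine Set.PairwiseDisjoint.countable_of_isOpen (s := fun a => {r : R | p r.1 ∈ O a})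
      ?_ (fun a _ => ?_) (fun a _ => ?_)
    · intro a _ b _ hab
      refine Set.disjoint_left.2 fun r h2 h3 => ?_
      exact Set.disjoint_left.1 (hd hab) h2 h3
    · exact (hO a).preimage (hp.comp continuous_subtype_val)
    · obtain ⟨x, hx1, hx2⟩ := hOW a
      obtain ⟨r, hr, rfl⟩ := hWR hx2
      exact ⟨⟨r, hr⟩, hx1⟩
  exact Set.countable_univ_iff.1 h1

/-- near limit functionals -/
theorem exists_limit {A : Set (M Γ)} {q : M Γ} (hq : (𝓝[≠] q ⊓ 𝓟 A).NeBot)
    {C : Set (DB C(K Γ, ℝ))} (hC : IsClosed C) {ψ : M Γ → DB C(K Γ, ℝ)} (hψ : ∀ a ∈ A, ψ a ∈ C)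
    {c : ℝ} (hn : ∀ a ∈ A, ∀ G : C(K Γ, ℝ), |(ψ a).1 G - G (k₁ a)| ≤ c * ‖G‖) :
    ∃ φ ∈ C, ∀ G : C(K Γ, ℝ), |φ.1 G - G (k₀ q)| ≤ c * ‖G‖ := by
  let u : Ultrafilter (M Γ) := Ultrafilter.of (𝓝[≠] q ⊓ 𝓟 A)
  have hu : (u : Filter (M Γ)) ≤ 𝓝[≠] q ⊓ 𝓟 A := Ultrafilter.of_le _
  have huA : ∀ᶠ a in (u : Filter (M Γ)), a ∈ A := hu.trans inf_le_right (mem_principal_self A)
  have huq : (u : Filter (M Γ)) ≤ 𝓝[≠] q := hu.trans inf_le_left
  obtain ⟨φ, -, hφ⟩ := isCompact_univ.ultrafilter_le_nhds (u.map ψ) (by simp)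
  have hφ' : Tendsto ψ (u : Filter (M Γ)) (𝓝 φ) := hφ
  refine ⟨φ, hC.mem_of_tendsto hφ' (huA.mono hψ), fun G => ?_⟩
  have h1 : Tendsto (fun a => (ψ a).1 G) (u : Filter (M Γ)) (𝓝 (φ.1 G)) :=
    ((continuous_evalDB G).tendsto φ).comp hφ'
  have h2 : Tendsto (fun a => G (k₁ a)) (u : Filter (M Γ)) (𝓝 (G (k₀ q))) :=
    (G.continuous.tendsto _).comp ((tendsto_k₁ q).mono_left huq)
  have h3 : Tendsto (fun a => |(ψ a).1 G - G (k₁ a)|) (u : Filter (M Γ))
      (𝓝 |φ.1 G - G (k₀ q)|) := (h1.sub h2).abs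
  exact le_of_tendsto h3 (huA.mono fun a ha => hn a ha G)

theorem not_isolated [Nontrivial Γ] {W : Set (M Γ)} (hW : IsOpen W) {q : M Γ} (hq : q ∈ W) :
    ∃ r ∈ W, r ≠ q := by
  obtain ⟨O, -, h2, h3⟩ := exists_disjoint_family hW ⟨q, hq⟩
  obtain ⟨a, b, hab⟩ := exists_pair_ne Γ
  obtain ⟨x, hx1, hx2⟩ := h2 a
  obtain ⟨y, hy1, hy2⟩ := h2 b
  by_cases hx : x = q
  · refine ⟨y, hy2, fun h => ?_⟩
    rw [hx] at hx1
    rw [h] at hy1
    exact Set.disjoint_left.1 (h3 hab) hx1 hy1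
  · exact ⟨x, hx2, hx⟩

theorem notF [Uncountable Γ] (Λ : Type) (f : DB C(K Γ, ℝ) → (Λ → ℝ)) (hf : IsEmbedding f)
    (hd : Dense {k | {i : Λ | f k i ≠ 0}.Finite}) : False := by
  classical
  -- choose finitely supported points
  have hex : ∀ q : M Γ, ∃ φ : DB C(K Γ, ℝ), {i : Λ | f φ i ≠ 0}.Finite ∧
      1 - 1 / 16 < φ.1 (cf (.inr q)) := by
    intro q
    have hopen : IsOpen {φ : DB C(K Γ, ℝ) | 1 - 1 / 16 < φ.1 (cf (.inr q))} :=
      isOpen_lt continuous_const (continuous_evalDB _)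
    obtain ⟨φ, h1, h2⟩ := hd.inter_open_nonempty _ hopen ⟨dl (k₁ q), by
      change 1 - 1 / 16 < cf (.inr q) (k₁ q)
      rw [cf_apply]
      simp [co, k₁]⟩
    exact ⟨φ, h2, h1⟩
  choose ψ hψ1 hψ2 using hex
  let N : M Γ → ℕ := fun q => (hψ1 q).toFinset.card
  have hψD : ∀ q, ψ q ∈ Dn f (N q) := fun q =>
    ⟨(hψ1 q).toFinset, le_rfl, fun i hi => by simpa using hi⟩
  have hmono : ∀ {m n : ℕ}, m ≤ n → Dn f m ⊆ Dn f n := by
    rintro m n hmn z ⟨F, h1, h2⟩
    exact ⟨F, h1.trans hmn, h2⟩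
  have : Nonempty Γ := inferInstance
  have : Nonempty (M Γ) := ⟨⟨fun _ => false, fun n a b h => by simp at h⟩⟩
  obtain ⟨n, hn⟩ := nonempty_interior_of_iUnion_of_closed
    (f := fun n : ℕ => closure {q : M Γ | N q ≤ n}) (fun n => isClosed_closure) (by
      rw [eq_univ_iff_forall]
      intro q
      exact mem_iUnion.2 ⟨N q, subset_closure (show N q ≤ N q from le_rfl)⟩)
  set W := interior (closure {q : M Γ | N q ≤ n}) with hW
  have hWo : IsOpen W := isOpen_interior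
  -- the compact relation
  let R : Set (DB C(K Γ, ℝ) × M Γ) := {z | z.1 ∈ Dn f n ∧
    ∀ G : C(K Γ, ℝ), |z.1.1 G - G (k₀ z.2)| ≤ 2 * (1 / 16) * ‖G‖}
  have hk₀ : Continuous (k₀ : M Γ → K Γ) := by
    refine Continuous.subtype_mk ?_ _
    exact continuous_id.prodMk continuous_const
  have hRc : IsClosed R := by
    have h1 : R = (Prod.fst ⁻¹' Dn f n) ∩ ⋂ G : C(K Γ, ℝ),
        {z : DB C(K Γ, ℝ) × M Γ | |z.1.1 G - G (k₀ z.2)| ≤ 2 * (1 / 16) * ‖G‖} := by
      ext z
      simp [R]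
    rw [h1]
    refine ((isClosed_Dn hf.continuous n).preimage continuous_fst).inter
      (isClosed_iInter fun G => isClosed_le ?_ continuous_const)
    exact (((continuous_evalDB G).comp continuous_fst).sub
      (G.continuous.comp (hk₀.comp continuous_snd))).abs
  have hRcomp : IsCompact R := hRc.isCompact
  have hWR : W ⊆ Prod.snd '' R := by
    intro q hq
    have hne : (𝓝[≠] q ⊓ 𝓟 {a : M Γ | N a ≤ n}).NeBot := by
      rw [nhdsWithin, inf_assoc, inf_principal, ← nhdsWithin, ← mem_closure_iff_nhdsWithin_neBot,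
        mem_closure_iff]
      intro V hV hqV
      obtain ⟨r, hr, hrq⟩ := not_isolated (hV.inter hWo) ⟨hqV, hq⟩
      have hr2 : r ∈ closure {a : M Γ | N a ≤ n} := interior_subset hr.2
      obtain ⟨a, ha1, ha2⟩ := mem_closure_iff.1 hr2 (V ∩ {q}ᶜ)
        (hV.inter isClosed_singleton.isOpen_compl) ⟨hr.1, hrq⟩
      exact ⟨a, ha1.1, ha1.2, ha2⟩
    obtain ⟨φ, h1, h2⟩ := exists_limit hne (isClosed_Dn hf.continuous n) (ψ := ψ)
      (fun a ha => hmono ha (hψD a)) (c := 2 * (1 / 16)) (fun a _ G => near_k₁ a (ψ a) (hψ2 a) G)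
    exact ⟨(φ, q), ⟨h1, h2⟩, rfl⟩
  let g : DB C(K Γ, ℝ) × M Γ → Λ → ℝ := fun z => f z.1
  have hg : Continuous g := hf.continuous.comp continuous_fst
  obtain ⟨R', hR'R, hR'c, W', hW'W, hW'o, hW'ne, hW'R, F, hF⟩ :=
    height hg continuous_snd n R hRcomp (fun z hz => hz.1) W hWo hn hWR
  obtain ⟨O, hO1, hO2, hO3⟩ := exists_disjoint_family hW'o hW'ne
  have hinj : InjOn g R' := by
    rintro ⟨φ, q⟩ hz ⟨φ', q'⟩ hz' h
    have h1 : φ = φ' := hf.injective h
    subst h1
    have h2 := (hR'R hz).2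
    have h3 := (hR'R hz').2
    congr 1
    by_contra hne
    have hne' : q.1 ≠ q'.1 := fun h => hne (Subtype.ext h)
    obtain ⟨i, hi⟩ := Function.ne_iff.1 hne'
    have h4 := h2 (cf (.inl i))
    have h5 := h3 (cf (.inl i))
    have h6 : ‖(cf (.inl i) : C(K Γ, ℝ))‖ ≤ 1 := by
      rw [ContinuousMap.norm_le _ zero_le_one]
      intro k
      rw [cf_apply]
      split_ifs <;> simp
    have h7 : |cf (.inl i) (k₀ q) - cf (.inl i) (k₀ q')| = 1 := by
      rw [cf_apply, cf_apply]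
      change |(if q.1 i = true then (1 : ℝ) else 0) - (if q'.1 i = true then 1 else 0)| = 1
      cases h8 : q.1 i <;> cases h9 : q'.1 i <;> simp_all
    have h8 : |cf (.inl i) (k₀ q) - cf (.inl i) (k₀ q')| ≤
        |φ.1 (cf (.inl i)) - cf (.inl i) (k₀ q)| + |φ.1 (cf (.inl i)) - cf (.inl i) (k₀ q')| := by
      rw [abs_sub_comm (φ.1 (cf (.inl i))) (cf (.inl i) (k₀ q))]
      exact abs_sub_le _ _ _
    rw [h7] at h8
    change |φ.1 (cf (.inl i)) - cf (.inl i) (k₀ q)| ≤ _ at h4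
    change |φ.1 (cf (.inl i)) - cf (.inl i) (k₀ q')| ≤ _ at h5
    linarith
  have hcount := countable_of_family hg continuous_snd hR'c hinj hW'R hF hO1 hO2 hO3
  exact not_countable hcount

end SemiEb
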