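import Pool.Agent.MP_e9afb0_an.NotF

/-!
# The dual ball of `C(K)` is semi-Eberlein
-/

open Set Filter Topology

namespace SemiEb

variable {Γ : Type}

/-- monomials in the coordinates -/
noncomputable def mon (F : Finset (S Γ)) : C(K Γ, ℝ) := ∏ s ∈ F, cf s

open Classical in
theorem mon_apply (F : Finset (S Γ)) (k : K Γ) :
    mon F k = if ∀ s ∈ F, co k s = true then 1 else 0 := by
  have h1 : mon F k = ∏ s ∈ F, cf s k := by
    unfold mon
    rw [ContinuousMap.prod_apply]
  rw [h1]
  split_ifs with h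
  · exact Finset.prod_eq_one fun s hs => by rw [cf_apply, if_pos (h s hs)]
  · push Not at h
    obtain ⟨s, hs, h2⟩ := h
    exact Finset.prod_eq_zero hs (by rw [cf_apply, if_neg h2])

theorem mon_mul [DecidableEq (S Γ)] (F G : Finset (S Γ)) :
    mon F * mon G = mon (F ∪ G) := by
  classical
  ext k
  rw [ContinuousMap.mul_apply, mon_apply, mon_apply, mon_apply]
  by_cases h1 : ∀ s ∈ F, co k s = true
  · by_cases h2 : ∀ s ∈ G, co k s = true
    · rw [if_pos h1, if_pos h2, if_pos, one_mul]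
      intro s hs
      rcases Finset.mem_union.1 hs with h | h
      · exact h1 s h
      · exact h2 s h
    · rw [if_neg h2, mul_zero, if_neg]
      exact fun h => h2 fun s hs => h s (Finset.mem_union_right _ hs)
  · rw [if_neg h1, zero_mul, if_neg]
    exact fun h => h1 fun s hs => h s (Finset.mem_union_left _ hs)

theorem norm_mon_le (F : Finset (S Γ)) : ‖(mon F : C(K Γ, ℝ))‖ ≤ 1 := by
  classical
  rw [ContinuousMap.norm_le _ zero_le_one]
  intro k
  rw [mon_apply]
  split_ifs <;> simp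

theorem eq_of_mon {φ ψ : DB C(K Γ, ℝ)} (h : ∀ F, φ.1 (mon F) = ψ.1 (mon F)) : φ = ψ := by
  classical
  let A : Subalgebra ℝ C(K Γ, ℝ) := Algebra.adjoin ℝ (range cf)
  have hsep : A.SeparatesPoints := by
    intro k l hkl
    have h1 : co k ≠ co l := fun h => hkl (co_injective h)
    obtain ⟨s, hs⟩ := Function.ne_iff.1 h1
    refine ⟨cf s, ⟨cf s, Algebra.subset_adjoin ⟨s, rfl⟩, rfl⟩, ?_⟩
    rw [cf_apply, cf_apply]
    cases h2 : co k s <;> cases h3 : co l s <;> simp_all
  have htop := ContinuousMap.subalgebra_topologicalClosure_eq_top_of_separatesPoints A hsep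
  have h2 : ∀ x ∈ Submonoid.closure (range (cf : S Γ → C(K Γ, ℝ))), ∃ F, x = mon F := by
    intro x hx
    induction hx using Submonoid.closure_induction with
    | mem x hx =>
      obtain ⟨s, rfl⟩ := hx
      exact ⟨{s}, by simp [mon]⟩
    | one => exact ⟨∅, by simp [mon]⟩
    | mul x y _ _ hx hy =>
      obtain ⟨F, rfl⟩ := hx
      obtain ⟨G, rfl⟩ := hy
      exact ⟨F ∪ G, mon_mul F G⟩
  have h3 : ∀ G ∈ Submodule.span ℝ
      ((Submonoid.closure (range (cf : S Γ → C(K Γ, ℝ))) : Submonoid C(K Γ, ℝ)) :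
        Set C(K Γ, ℝ)), φ.1 G = ψ.1 G := by
    intro G hG
    induction hG using Submodule.span_induction with
    | mem x hx =>
      obtain ⟨F, rfl⟩ := h2 x hx
      exact h F
    | zero => simp
    | add x y _ _ hx hy => rw [map_add, map_add, hx, hy]
    | smul a x _ hx => rw [map_smul, map_smul, hx]
  have hA : ∀ G ∈ A, φ.1 G = ψ.1 G := by
    intro G hG
    refine h3 G ?_
    rw [← Algebra.adjoin_eq_span]
    exact hG
  refine Subtype.ext (DFunLike.ext _ _ fun G => ?_)
  have hG : G ∈ A.topologicalClosure := by rw [htop]; trivial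
  have hcl : IsClosed {G : C(K Γ, ℝ) | φ.1 G = ψ.1 G} :=
    isClosed_eq (map_continuous φ.1) (map_continuous ψ.1)
  exact (closure_minimal (s := (A : Set C(K Γ, ℝ))) (fun G hG => hA G hG) hcl) hG

/-- weights -/
noncomputable def wt (F : Finset (S Γ)) : ℝ := 1 / (1 + (F.sup lev : ℕ))

theorem wt_pos (F : Finset (S Γ)) : 0 < wt F := by unfold wt; positivity

theorem wt_le (F : Finset (S Γ)) : wt F ≤ 1 := by
  unfold wt
  rw [div_le_one (by positivity)]
  have : (0 : ℝ) ≤ (F.sup lev : ℕ) := by positivity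
  linarith

/-- the embedding -/
noncomputable def hm (φ : DB C(K Γ, ℝ)) : Finset (S Γ) × Bool → ℝ
  | (F, true) => wt F * max (φ.1 (mon F)) 0
  | (F, false) => wt F * max (-φ.1 (mon F)) 0

theorem abs_mon_le (φ : DB C(K Γ, ℝ)) (F : Finset (S Γ)) : |φ.1 (mon F)| ≤ 1 :=
  (φ.2 _).trans (norm_mon_le F)

theorem hm_mem (φ : DB C(K Γ, ℝ)) (i : Finset (S Γ) × Bool) : hm φ i ∈ Icc (0 : ℝ) 1 := by
  have h1 := abs_le.1 (abs_mon_le φ i.1)
  have key : ∀ x : ℝ, x ≤ 1 → wt i.1 * max x 0 ∈ Icc (0 : ℝ) 1 := by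
    intro x hx
    have h2 : 0 ≤ max x 0 := le_max_right _ _
    have h3 : max x 0 ≤ 1 := max_le hx zero_le_one
    exact ⟨mul_nonneg (wt_pos _).le h2, mul_le_one₀ (wt_le _) h2 h3⟩
  obtain ⟨F, b⟩ := i
  cases b
  · exact key _ (by linarith [h1.1])
  · exact key _ h1.2

theorem continuous_hm : Continuous (hm : DB C(K Γ, ℝ) → Finset (S Γ) × Bool → ℝ) := by
  refine continuous_pi fun i => ?_
  obtain ⟨F, b⟩ := i
  have h1 := continuous_evalDB (X := C(K Γ, ℝ)) (mon F)
  cases b
  · exact continuous_const.mul (h1.neg.max continuous_const)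
  · exact continuous_const.mul (h1.max continuous_const)

theorem injective_hm : Function.Injective (hm : DB C(K Γ, ℝ) → Finset (S Γ) × Bool → ℝ) := by
  intro φ ψ h
  refine eq_of_mon fun F => ?_
  have h1 : wt F * max (φ.1 (mon F)) 0 = wt F * max (ψ.1 (mon F)) 0 := congrFun h (F, true)
  have h2 : wt F * max (-φ.1 (mon F)) 0 = wt F * max (-ψ.1 (mon F)) 0 := congrFun h (F, false)
  have h3 := mul_left_cancel₀ (wt_pos F).ne' h1
  have h4 := mul_left_cancel₀ (wt_pos F).ne' h2
  have h5 : ∀ x : ℝ, x = max x 0 - max (-x) 0 := by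
    intro x
    rcases le_total 0 x with hx | hx
    · rw [max_eq_left hx, max_eq_right (by linarith)]; ring
    · rw [max_eq_right hx, max_eq_left (by linarith)]; ring
  rw [h5 (φ.1 (mon F)), h5 (ψ.1 (mon F)), h3, h4]

theorem isEmbedding_hm : IsEmbedding (hm : DB C(K Γ, ℝ) → Finset (S Γ) × Bool → ℝ) :=
  (continuous_hm.isClosedEmbedding injective_hm).isEmbedding

/-- the pattern of a point on a finite set of coordinates -/
def pat (T : Finset (S Γ)) (k : K Γ) : T → Bool := fun s => co k s.1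

theorem continuous_pat (T : Finset (S Γ)) : Continuous (pat T : K Γ → T → Bool) :=
  continuous_pi fun s => continuous_co s.1

instance : Nonempty (K Γ) := ⟨k₀ ⟨fun _ => false, fun n a b h => by simp at h⟩⟩

/-- the finite-valued retraction -/
noncomputable def rt (T : Finset (S Γ)) : C(K Γ, K Γ) where
  toFun k := Function.invFun (pat T) (pat T k)
  continuous_toFun := by
    have h : Continuous (Function.invFun (pat T : K Γ → T → Bool)) :=
      continuous_of_discreteTopology
    exact h.comp (continuous_pat T)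

theorem rt_spec (T : Finset (S Γ)) (k : K Γ) {s : S Γ} (hs : s ∈ T) :
    co (rt T k) s = co k s := by
  have h : pat T (rt T k) = pat T k := Function.invFun_eq ⟨k, rfl⟩
  exact congrFun h ⟨s, hs⟩

theorem finite_range_rt (T : Finset (S Γ)) : (range (rt T : K Γ → K Γ)).Finite := by
  refine (finite_range (Function.invFun (pat T : K Γ → T → Bool))).subset ?_
  rintro _ ⟨k, rfl⟩
  exact ⟨pat T k, rfl⟩

/-- the approximating functionals -/
noncomputable def ap (φ : DB C(K Γ, ℝ)) (T : Finset (S Γ)) : DB C(K Γ, ℝ) := by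
  have hb : ∀ G : C(K Γ, ℝ), |φ.1 (G.comp (rt T))| ≤ ‖G‖ := by
    intro G
    refine (φ.2 _).trans ?_
    rw [ContinuousMap.norm_le _ (norm_nonneg _)]
    exact fun k => G.norm_coe_le_norm _
  exact ⟨StrongDual.toWeakDual (LinearMap.mkContinuous
    { toFun := fun G => φ.1 (G.comp (rt T))
      map_add' := fun G H => by rw [ContinuousMap.add_comp, map_add]
      map_smul' := fun a G => by
        rw [ContinuousMap.smul_comp, map_smul]; rfl } 1 (fun G => by
          rw [one_mul]
          exact hb G)), hb⟩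

theorem ap_apply (φ : DB C(K Γ, ℝ)) (T : Finset (S Γ)) (G : C(K Γ, ℝ)) :
    (ap φ T).1 G = φ.1 (G.comp (rt T)) := rfl

theorem tendsto_ap (φ : DB C(K Γ, ℝ)) : Tendsto (ap φ) atTop (𝓝 φ) := by
  classical
  rw [isEmbedding_hm.isInducing.tendsto_nhds_iff, tendsto_pi_nhds]
  intro i
  refine tendsto_const_nhds.congr' ?_
  filter_upwards [eventually_ge_atTop i.1] with T hT
  have h1 : (mon i.1).comp (rt T) = mon i.1 := by
    ext k
    rw [ContinuousMap.comp_apply, mon_apply, mon_apply]
    congr 1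
    refine propext (forall₂_congr fun s hs => ?_)
    rw [rt_spec T k (hT hs)]
  obtain ⟨F, b⟩ := i
  have h2 : (ap φ T).1 (mon F) = φ.1 (mon F) := by rw [ap_apply, h1]
  cases b
  · change wt F * max (-φ.1 (mon F)) 0 = wt F * max (-(ap φ T).1 (mon F)) 0
    rw [h2]
  · change wt F * max (φ.1 (mon F)) 0 = wt F * max ((ap φ T).1 (mon F)) 0
    rw [h2]

theorem finite_ap (φ : DB C(K Γ, ℝ)) (T : Finset (S Γ)) (ε : ℝ) (hε : 0 < ε) :
    {i | ε ≤ |hm (ap φ T) i|}.Finite := by
  classical
  obtain ⟨n, hn⟩ := exists_nat_gt (1 / ε)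
  have hfin : (⋃ k ∈ range (rt T : K Γ → K Γ),
      {F : Finset (S Γ) | (F : Set (S Γ)) ⊆ {s | co k s = true ∧ lev s ≤ n}}).Finite := by
    refine (finite_range_rt T).biUnion fun k _ => ?_
    refine (finite_level k n).toFinset.powerset.finite_toSet.subset fun F hF => ?_
    rw [Finset.mem_coe, Finset.mem_powerset]
    intro s hs
    rw [Set.Finite.mem_toFinset]
    exact hF hs
  refine (hfin.prod (finite_univ (α := Bool))).subset ?_
  rintro ⟨F, b⟩ hi
  refine ⟨?_, mem_univ _⟩
  have hle : |hm (ap φ T) (F, b)| ≤ wt F * |(ap φ T).1 (mon F)| := by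
    have h0 : ∀ x : ℝ, |wt F * max x 0| ≤ wt F * |x| := by
      intro x
      rw [abs_mul, abs_of_pos (wt_pos F)]
      refine mul_le_mul_of_nonneg_left ?_ (wt_pos F).le
      rw [abs_of_nonneg (le_max_right _ _)]
      exact max_le (le_abs_self _) (abs_nonneg _)
    cases b
    · have := h0 (-(ap φ T).1 (mon F))
      rwa [abs_neg] at this
    · exact h0 _
  have hi' : ε ≤ wt F * |(ap φ T).1 (mon F)| := le_trans hi hle
  have h1 : ε ≤ wt F := by
    refine hi'.trans (mul_le_of_le_one_right (wt_pos F).le (abs_mon_le _ _))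
  have h2 : (ap φ T).1 (mon F) ≠ 0 := by
    intro h
    rw [h, abs_zero, mul_zero] at hi'
    linarith
  have hsup : F.sup lev ≤ n := by
    unfold wt at h1
    rw [le_div_iff₀ (by positivity)] at h1
    have h3 : (1 : ℝ) + (F.sup lev : ℕ) ≤ 1 / ε := by
      rw [le_div_iff₀ hε]
      linarith
    have h4 : ((F.sup lev : ℕ) : ℝ) < n := by linarith
    exact_mod_cast h4.le
  have h3 : (mon F).comp (rt T) ≠ 0 := by
    intro h
    apply h2
    rw [ap_apply, h, map_zero]
  have h4 : ∃ k, mon F (rt T k) ≠ 0 := by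
    by_contra hcon
    push Not at hcon
    exact h3 (ContinuousMap.ext fun k => hcon k)
  obtain ⟨k, hk⟩ := h4
  rw [mon_apply] at hk
  have h5 : ∀ s ∈ F, co (rt T k) s = true := by
    by_contra h6
    rw [if_neg h6] at hk
    exact hk rfl
  simp only [mem_iUnion]
  refine ⟨rt T k, ⟨k, rfl⟩, fun s hs => ⟨h5 s hs, ?_⟩⟩
  exact (Finset.le_sup (f := lev) hs).trans hsup

theorem dense_hm : Dense {φ : DB C(K Γ, ℝ) | ∀ ε : ℝ, ε > 0 →
    {i : Finset (S Γ) × Bool | ε ≤ |hm φ i|}.Finite} := by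
  intro φ
  refine mem_closure_of_tendsto (tendsto_ap φ) (Eventually.of_forall fun T => ?_)
  exact fun ε hε => finite_ap φ T ε hε

end SemiEb
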