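import Mathlib

/-!
# The compact space: the duplicate of a nowhere ccc Eberlein compactum
-/

open Set Filter Topology

namespace SemiEb

variable (Γ : Type)

/-- `Γ × ℕ`-indexed binary sequences with at most one nonzero entry on each level. -/
def MSet : Set (Γ × ℕ → Bool) :=
  {x | ∀ (n : ℕ) (a b : Γ), x (a, n) = true → x (b, n) = true → a = b}

/-- the base compact space -/
abbrev M : Type := ↥(MSet Γ)

/-- the duplicate of `M` -/
def KSet : Set (M Γ × (M Γ → Bool)) := {k | ∀ m, k.2 m = true → m = k.1}

/-- the compact space -/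
abbrev K : Type := ↥(KSet Γ)

variable {Γ}

theorem isOpen_coord {ι : Type} (s : ι) : IsOpen {x : ι → Bool | x s = true} := by
  have h : Continuous fun x : ι → Bool => x s := continuous_apply s
  exact (isOpen_discrete ({true} : Set Bool)).preimage h

theorem isClosed_coord {ι : Type} (s : ι) : IsClosed {x : ι → Bool | x s = true} := by
  have h : Continuous fun x : ι → Bool => x s := continuous_apply s
  exact (isClosed_discrete ({true} : Set Bool)).preimage h

theorem isClosed_MSet : IsClosed (MSet Γ) := by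
  have h : MSet Γ = ⋂ (n : ℕ) (a : Γ) (b : Γ) (_ : a ≠ b),
      ({x : Γ × ℕ → Bool | x (a, n) = true} ∩ {x | x (b, n) = true})ᶜ := by
    ext x
    simp only [MSet, mem_ofPred_eq, mem_iInter, mem_compl_iff, mem_inter_iff, not_and]
    constructor
    · intro h n a b hab h1 h2
      exact hab (h n a b h1 h2)
    · intro h n a b h1 h2
      by_contra hab
      exact h n a b hab h1 h2
  rw [h]
  refine isClosed_iInter fun n => isClosed_iInter fun a => isClosed_iInter fun b =>
    isClosed_iInter fun _ => ?_
  exact ((isOpen_coord _).inter (isOpen_coord _)).isClosed_compl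

instance : CompactSpace (M Γ) := isCompact_iff_compactSpace.1 isClosed_MSet.isCompact

theorem isClosed_KSet : IsClosed (KSet Γ) := by
  have h : KSet Γ = ⋂ m : M Γ, ({k : M Γ × (M Γ → Bool) | k.2 m = true} ∩ {k | k.1 = m}ᶜ)ᶜ := by
    ext k
    simp only [KSet, mem_ofPred_eq, mem_iInter, mem_compl_iff, mem_inter_iff, not_and, not_not]
    exact ⟨fun h m hm => (h m hm).symm, fun h m hm => (h m hm).symm⟩
  rw [h]
  refine isClosed_iInter fun m => ?_
  refine IsOpen.isClosed_compl (IsOpen.inter ?_ ?_)
  · exact (isOpen_coord m).preimage continuous_snd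
  · exact (isClosed_singleton.preimage continuous_fst).isOpen_compl

instance : CompactSpace (K Γ) := isCompact_iff_compactSpace.1 isClosed_KSet.isCompact

/-- the non-isolated copy of `q` -/
def k₀ (q : M Γ) : K Γ := ⟨(q, fun _ => false), fun _ h => by simp at h⟩

open Classical in
/-- the isolated copy of `q` -/
noncomputable def k₁ (q : M Γ) : K Γ :=
  ⟨(q, fun m => decide (m = q)), fun m h => by simpa using h⟩

/-- the index set of the coordinates of `K` -/
abbrev S (Γ : Type) : Type := (Γ × ℕ) ⊕ M Γ

/-- the coordinates -/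
def co (k : K Γ) : S Γ → Bool
  | .inl i => k.1.1.1 i
  | .inr m => k.1.2 m

theorem continuous_co (s : S Γ) : Continuous fun k : K Γ => co k s := by
  rcases s with i | m
  · exact (continuous_apply i).comp (continuous_subtype_val.comp
      (continuous_fst.comp continuous_subtype_val))
  · exact (continuous_apply m).comp (continuous_snd.comp continuous_subtype_val)

theorem co_injective : Function.Injective (co : K Γ → S Γ → Bool) := by
  intro k l h
  have h1 : k.1.1.1 = l.1.1.1 := funext fun i => congrFun h (.inl i)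
  have h2 : k.1.2 = l.1.2 := funext fun m => congrFun h (.inr m)
  exact Subtype.ext (Prod.ext (Subtype.ext h1) h2)

/-- the level of a coordinate -/
def lev : S Γ → ℕ
  | .inl i => i.2
  | .inr _ => 0

theorem finite_level (k : K Γ) (n : ℕ) : {s : S Γ | co k s = true ∧ lev s ≤ n}.Finite := by
  have h : {s : S Γ | co k s = true ∧ lev s ≤ n} ⊆
      {Sum.inr k.1.1} ∪ ⋃ j ∈ Finset.range (n + 1),
        {s : S Γ | ∃ a : Γ, s = Sum.inl (a, j) ∧ k.1.1.1 (a, j) = true} := by
    rintro s ⟨h1, h2⟩
    rcases s with ⟨a, j⟩ | m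
    · right
      simp only [mem_iUnion, Finset.mem_range]
      exact ⟨j, Nat.lt_succ_of_le h2, a, rfl, h1⟩
    · left
      have := k.2 m h1
      simp [this]
  refine Set.Finite.subset ?_ h
  refine (finite_singleton _).union (Set.Finite.biUnion (Finset.finite_toSet _) fun j _ => ?_)
  refine Set.Subsingleton.finite ?_
  rintro s ⟨a, rfl, ha⟩ t ⟨b, rfl, hb⟩
  rw [k.1.1.2 j a b ha hb]

/-- Every nonempty open subset of `M` meets uncountably many pairwise disjoint open sets. -/
theorem exists_disjoint_family {W : Set (M Γ)} (hW : IsOpen W) (hne : W.Nonempty) :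
    ∃ O : Γ → Set (M Γ), (∀ a, IsOpen (O a)) ∧ (∀ a, (O a ∩ W).Nonempty) ∧
      Pairwise (Function.onFun Disjoint O) := by
  obtain ⟨x, hx⟩ := hne
  obtain ⟨V, hV, hVW⟩ := isOpen_induced_iff.1 hW
  have hxV : x.1 ∈ V := by
    rw [← hVW] at hx
    exact hx
  obtain ⟨I, u, hu, hsub⟩ := isOpen_pi_iff.1 hV x.1 hxV
  obtain ⟨n, hn⟩ : ∃ n : ℕ, ∀ i ∈ I, i.2 < n :=
    ⟨I.sup Prod.snd + 1, fun i hi => Nat.lt_succ_of_le (Finset.le_sup (f := Prod.snd) hi)⟩
  classical
  refine ⟨fun a => {y : M Γ | y.1 (a, n) = true}, fun a =>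
    (isOpen_coord (a, n)).preimage continuous_subtype_val, fun a => ?_, ?_⟩
  · let y : Γ × ℕ → Bool := fun i => if i.2 = n then decide (i.1 = a) else x.1 i
    have hy : y ∈ MSet Γ := by
      intro j b c hb hc
      by_cases hj : j = n
      · simp only [y, hj, if_true, decide_eq_true_eq] at hb hc
        rw [hb, hc]
      · simp only [y, hj, if_false] at hb hc
        exact x.2 j b c hb hc
    refine ⟨⟨y, hy⟩, ?_, ?_⟩
    · change y (a, n) = true
      simp [y]
    · rw [← hVW]
      refine hsub fun i hi => ?_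
      have h1 : y i = x.1 i := by
        simp only [y, if_neg (hn i hi).ne]
      change y i ∈ u i
      rw [h1]
      exact (hu i hi).2
  · intro a b hab
    refine Set.disjoint_left.2 fun y h1 h2 => hab ?_
    exact y.2 n a b h1 h2

theorem tendsto_k₁ (q : M Γ) : Tendsto (k₁ : M Γ → K Γ) (𝓝[≠] q) (𝓝 (k₀ q)) := by
  rw [tendsto_subtype_rng]
  refine Tendsto.prodMk_nhds (tendsto_id'.2 nhdsWithin_le_nhds) ?_
  rw [tendsto_pi_nhds]
  intro m
  refine tendsto_const_nhds.congr' ?_
  by_cases hm : m = q
  · filter_upwards [self_mem_nhdsWithin] with a ha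
    have : m ≠ a := fun h => ha (h ▸ hm)
    simp [this]
  · have h1 : ∀ᶠ a in 𝓝 q, a ≠ m := (isOpen_ne.mem_nhds (Ne.symm hm))
    filter_upwards [nhdsWithin_le_nhds h1] with a ha
    simp [Ne.symm ha]

end SemiEb
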